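import Pool.Agent.K3h83.IN.Stm5

/-!
# The number of the `p`-singular classes of a group with a Sylow `p`-subgroup of order `p`
-/

set_option autoImplicit false
set_option linter.all false

open scoped BigOperators Classical

namespace Pool.Agent.K3h99.OP

open Pool.Agent.K3h83.IN

section

variable {p : ℕ} [hp : Fact p.Prime] {A G : Type} [Group A] [Finite A] [Group G] [Finite G]
  {P H : Subgroup A} {ι : A →* G}

/-- an exponent which takes the `p`-part -/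
theorem exists_exp (h : LD p P H) : ∃ k : ℕ, (∀ x ∈ P, x ^ k = x) ∧ ∀ y ∈ H, y ^ k = 1 := by
  have hc : Nat.Coprime p (Nat.card H) := (Nat.Prime.coprime_iff_not_dvd hp.out).2 h.cH
  obtain ⟨k, hk1, hk2⟩ := Nat.chineseRemainder hc 1 0
  refine ⟨k, fun x hx => ?_, fun y hy => ?_⟩
  · have h1 : orderOf x ∣ p := by
      have := orderOf_dvd_natCard (⟨x, hx⟩ : P)
      rwa [h.cP, Subgroup.orderOf_mk] at this
    have h2 : x ^ k = x ^ 1 := pow_eq_pow_iff_modEq.2 (hk1.of_dvd h1)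
    rw [h2, pow_one]
  · have h1 : orderOf y ∣ Nat.card H := by
      have := orderOf_dvd_natCard (⟨y, hy⟩ : H)
      rwa [Subgroup.orderOf_mk] at this
    exact orderOf_dvd_iff_pow_eq_one.1 (h1.trans ((Nat.modEq_zero_iff_dvd).1 hk2))

theorem pw {k : ℕ} (h : LD p P H) (hk : (∀ x ∈ P, x ^ k = x) ∧ ∀ y ∈ H, y ^ k = 1) {x y : A}
    (hx : x ∈ P) (hy : y ∈ H) : (x * y) ^ k = x := by
  have hc : Commute x y := h.com x hx y hy
  rw [hc.mul_pow, hk.1 x hx, hk.2 y hy, mul_one]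

/-- `P` is generated by each of its elements `x ≠ 1` -/
theorem gen (h : LD p P H) {x z : A} (hx : x ∈ P) (hx1 : x ≠ 1) (hz : z ∈ P) :
    ∃ j : ℕ, z = x ^ j := by
  have h1 : (⟨x, hx⟩ : P) ≠ 1 := by
    intro h2
    exact hx1 (congrArg Subtype.val h2)
  obtain ⟨j, hj⟩ := mem_powers_of_prime_card h.cP h1 (g' := (⟨z, hz⟩ : P))
  exact ⟨j, (congrArg Subtype.val hj).symm⟩

/-- the elements `x y` with `x` in `P`, `x ≠ 1`, and `y` in `H` -/
def SS (P H : Subgroup A) : Set A := {u | ∃ x ∈ P, ∃ y ∈ H, x ≠ 1 ∧ u = x * y}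

/-- what centralizes `P` is in `P H` -/
theorem split (h : LD p P H) {b : A} (hb : ∀ x ∈ P, x * b = b * x) :
    ∃ x ∈ P, ∃ y ∈ H, b = x * y := by
  haveI := h.nH
  have h1 : b ∈ P ⊔ H := by
    rw [← h.cen, Subgroup.mem_centralizer_iff]
    exact fun x hx => hb x hx
  rw [Subgroup.mem_sup_of_normal_right] at h1
  obtain ⟨x, hx, y, hy, e⟩ := h1
  exact ⟨x, hx, y, hy, e.symm⟩

/-- what commutes with `x y` commutes with `P` -/
theorem comm_P (h : LD p P H) {x y b : A} (hx : x ∈ P) (hx1 : x ≠ 1) (hy : y ∈ H)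
    (hb : b * (x * y) = (x * y) * b) : ∀ z ∈ P, z * b = b * z := by
  obtain ⟨k, hk⟩ := exists_exp h
  have h1 : Commute b ((x * y) ^ k) := (show Commute b (x * y) from hb).pow_right k
  rw [pw h hk hx hy] at h1
  intro z hz
  obtain ⟨j, rfl⟩ := gen h hx hx1 hz
  exact (h1.pow_right j).symm

/-- conjugacy in `G` and in `A` -/
theorem conj_A (h : LD p P H) (he : EM p P ι) {u u' : A} (hu : u ∈ SS P H) (hu' : u' ∈ SS P H) {g : G}
    (hg : g * ι u * g⁻¹ = ι u') : ∃ a : A, a * u * a⁻¹ = u' := by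
  obtain ⟨k, hk⟩ := exists_exp h
  obtain ⟨x, hx, y, hy, hx1, rfl⟩ := hu
  obtain ⟨x', hx', y', hy', hx1', rfl⟩ := hu'
  have h1 : g * ι x * g⁻¹ = ι x' := by
    have h2 : (g * ι (x * y) * g⁻¹) ^ k = (ι (x' * y')) ^ k := by rw [hg]
    rw [conj_pow, ← map_pow, ← map_pow, pw h hk hx hy, pw h hk hx' hy'] at h2
    exact h2
  have h3 : g ∈ ι.range := by
    apply he.nor
    intro z hz
    obtain ⟨j, rfl⟩ := gen h hx hx1 hz
    refine ⟨x' ^ j, P.pow_mem hx' j, ?_⟩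
    rw [map_pow, map_pow, ← conj_pow, h1]
  obtain ⟨a, rfl⟩ := h3
  refine ⟨a, he.inj ?_⟩
  rw [map_mul, map_mul, map_inv]
  exact hg

/-- `SS` is stable under conjugation -/
theorem conj_SS (h : LD p P H) {u : A} (hu : u ∈ SS P H) (a : A) : a * u * a⁻¹ ∈ SS P H := by
  obtain ⟨x, hx, y, hy, hx1, rfl⟩ := hu
  refine ⟨a * x * a⁻¹, h.nP.conj_mem x hx a, a * y * a⁻¹, h.nH.conj_mem y hy a, ?_, by group⟩
  intro h1
  apply hx1
  have h2 : x = a⁻¹ * (a * x * a⁻¹) * a := by group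
  rw [h2, h1]
  group

/-- the elements of `SS` have order divisible by `p` -/
theorem sing (h : LD p P H) (he : EM p P ι) {u : A} (hu : u ∈ SS P H) : p ∣ orderOf (ι u) := by
  obtain ⟨k, hk⟩ := exists_exp h
  obtain ⟨x, hx, y, hy, hx1, rfl⟩ := hu
  rw [orderOf_injective ι he.inj]
  have h1 : orderOf x ∣ orderOf (x * y) := by
    have := orderOf_pow_dvd (x := x * y) k
    rwa [pw h hk hx hy] at this
  have h2 : orderOf x = p := by
    have h3 : orderOf x ∣ p := by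
      have := orderOf_dvd_natCard (⟨x, hx⟩ : P)
      rwa [h.cP, Subgroup.orderOf_mk] at this
    rcases (Nat.dvd_prime hp.out).1 h3 with h4 | h4
    · exact absurd (orderOf_eq_one_iff.1 h4) hx1
    · exact h4
  rwa [h2] at h1

/-- each `p`-singular element is conjugate to an element of `ι SS` -/
theorem exists_SS (h : LD p P H) (he : EM p P ι) {g : G} (hg : p ∣ orderOf g) :
    ∃ u ∈ SS P H, ∃ t : G, t * ι u * t⁻¹ = g := by
  have hord : 0 < orderOf g := orderOf_pos g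
  obtain ⟨n, hn⟩ := hg
  have hn0 : 0 < n := by
    rcases Nat.eq_zero_or_pos n with h0 | h0
    · rw [h0, mul_zero] at hn; omega
    · exact h0
  -- the element of order `p`
  have h1 : orderOf (g ^ n) = p := by
    rw [orderOf_pow' g (by omega), hn, Nat.gcd_eq_right (Dvd.intro_left p rfl)]
    exact Nat.mul_div_cancel _ hn0
  have hQc : Nat.card (P.map ι) = p := by
    rw [← h.cP]
    exact Nat.card_congr (P.equivMapOfInjective ι he.inj).toEquiv.symm
  have hQp : IsPGroup p (P.map ι) := IsPGroup.of_card (n := 1) (by rw [hQc, pow_one])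
  let Q : Sylow p G := hQp.toSylow he.syl
  have hz : IsPGroup p (Subgroup.zpowers (g ^ n)) :=
    IsPGroup.of_card (n := 1) (by rw [Nat.card_zpowers, h1, pow_one])
  obtain ⟨R, hR⟩ := hz.exists_le_sylow
  obtain ⟨t, ht⟩ := MulAction.exists_smul_eq G R Q
  have h2 : t * g ^ n * t⁻¹ ∈ P.map ι := by
    have h3 : t * g ^ n * t⁻¹ ∈ (Q : Subgroup G) := by
      rw [← ht, Sylow.smul_def, Sylow.pointwise_smul_def]
      rw [Subgroup.mem_pointwise_smul_iff_inv_smul_mem]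
      have h4 : (MulAut.conj t)⁻¹ • (t * g ^ n * t⁻¹) = g ^ n := by
        rw [← map_inv, MulAut.smul_def, MulAut.conj_apply]
        group
      rw [h4]
      exact hR (Subgroup.mem_zpowers _)
    exact h3
  obtain ⟨x₁, hx₁, e₁⟩ := h2
  have e₁' : (t * g * t⁻¹) ^ n = ι x₁ := by rw [conj_pow]; exact e₁.symm
  have hx1 : x₁ ≠ 1 := by
    rintro rfl
    rw [map_one] at e₁
    have : g ^ n = 1 := by
      have h3 : g ^ n = t⁻¹ * (t * g ^ n * t⁻¹) * t := by group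
      rw [h3, ← e₁]; group
    rw [this, orderOf_one] at h1
    exact hp.out.one_lt.ne h1
  have hcx : ∀ z ∈ P, (t * g * t⁻¹) * ι z = ι z * (t * g * t⁻¹) := by
    intro z hz
    obtain ⟨j, rfl⟩ := gen h hx₁ hx1 hz
    rw [map_pow, ← e₁', ← pow_mul]
    exact ((Commute.refl (t * g * t⁻¹)).pow_right _).eq
  have h5 : t * g * t⁻¹ ∈ ι.range := by
    apply he.nor
    intro z hz
    refine ⟨z, hz, ?_⟩
    rw [hcx z hz]
    group
  obtain ⟨a, ha⟩ := h5
  obtain ⟨x, hx, y, hy, rfl⟩ := split h (b := a) (fun z hz => he.inj (by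
    rw [map_mul, map_mul, ha]
    exact (hcx z hz).symm))
  refine ⟨x * y, ⟨x, hx, y, hy, ?_, rfl⟩, t⁻¹, ?_⟩
  · rintro rfl
    apply h.cH
    rw [one_mul] at ha
    have h6 : orderOf (t * g * t⁻¹) = orderOf g := by
      have : t * g * t⁻¹ = MulAut.conj t g := rfl
      rw [this]
      exact orderOf_injective (MulAut.conj t).toMonoidHom (MulAut.conj t).injective g
    have h7 : orderOf y ∣ Nat.card H := by
      have := orderOf_dvd_natCard (⟨y, hy⟩ : H)
      rwa [Subgroup.orderOf_mk] at this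
    refine dvd_trans ?_ h7
    rw [← orderOf_injective ι he.inj, ha, h6, hn]
    exact Dvd.intro n rfl
  · rw [ha]; group

/-- the commuting pairs -/
def XX (P H : Subgroup A) : Type := {q : A × A // q.1 ∈ SS P H ∧ q.2 * q.1 = q.1 * q.2}

/-- the classes -/
abbrev CL (p : ℕ) (G : Type) [Group G] : Type :=
  {c : ConjClasses G // ∃ g, ConjClasses.mk g = c ∧ p ∣ orderOf g}

/-- the class of an element of `SS` -/
def cls (h : LD p P H) (he : EM p P ι) (u : SS P H) : CL p G :=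
  ⟨ConjClasses.mk (ι u.1), ι u.1, rfl, sing h he u.2⟩

theorem cls_surj (h : LD p P H) (he : EM p P ι) : Function.Surjective (cls h he) := by
  rintro ⟨c, g, rfl, hg⟩
  obtain ⟨u, hu, t, ht⟩ := exists_SS h he hg
  refine ⟨⟨u, hu⟩, ?_⟩
  apply Subtype.ext
  show ConjClasses.mk (ι u) = ConjClasses.mk g
  rw [ConjClasses.mk_eq_mk_iff_isConj, isConj_iff]
  exact ⟨t, ht⟩

theorem cls_eq (h : LD p P H) (he : EM p P ι) {u u' : SS P H} (e : cls h he u = cls h he u') :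
    ∃ a : A, a * u.1 * a⁻¹ = u'.1 := by
  have h1 : ConjClasses.mk (ι u.1) = ConjClasses.mk (ι u'.1) := congrArg Subtype.val e
  rw [ConjClasses.mk_eq_mk_iff_isConj, isConj_iff] at h1
  obtain ⟨g, hg⟩ := h1
  exact conj_A h he u.2 u'.2 hg

theorem cls_conj (h : LD p P H) (he : EM p P ι) (u : SS P H) (a : A) :
    cls h he ⟨a * u.1 * a⁻¹, conj_SS h u.2 a⟩ = cls h he u := by
  apply Subtype.ext
  show ConjClasses.mk (ι (a * u.1 * a⁻¹)) = ConjClasses.mk (ι u.1)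
  rw [ConjClasses.mk_eq_mk_iff_isConj, isConj_iff]
  refine ⟨(ι a)⁻¹, ?_⟩
  rw [map_mul, map_mul, map_inv]
  group

/-- the first count -/
theorem card_XX_1 (h : LD p P H) (he : EM p P ι) :
    Nat.card (XX P H) = Nat.card A * Nat.card (CL p G) := by
  rw [← Nat.card_prod]
  choose rep hrep using cls_surj h he
  have hT : ∀ u : SS P H, ∃ a : A, a * (rep (cls h he u)).1 * a⁻¹ = u.1 := fun u =>
    cls_eq h he (hrep _)
  choose T hT using hT
  refine Nat.card_congr (Equiv.ofBijective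
    (fun q : XX P H => (q.1.2 * T ⟨q.1.1, q.2.1⟩, cls h he ⟨q.1.1, q.2.1⟩)) ⟨?_, ?_⟩)
  · rintro ⟨⟨u, b⟩, hu, hb⟩ ⟨⟨u', b'⟩, hu', hb'⟩ e
    simp only [Prod.mk.injEq] at e hb hb' hu hu'
    obtain ⟨e1, e2⟩ := e
    have key : ∀ (u b : A) (hu : u ∈ SS P H), b * u = u * b →
        (b * T ⟨u, hu⟩) * (rep (cls h he ⟨u, hu⟩)).1 * (b * T ⟨u, hu⟩)⁻¹ = u := by
      intro u b hu hb
      calc (b * T ⟨u, hu⟩) * (rep (cls h he ⟨u, hu⟩)).1 * (b * T ⟨u, hu⟩)⁻¹ =
            b * (T ⟨u, hu⟩ * (rep (cls h he ⟨u, hu⟩)).1 * (T ⟨u, hu⟩)⁻¹) * b⁻¹ := by group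
        _ = b * u * b⁻¹ := by rw [hT]
        _ = u := by rw [hb]; group
    have h1 := key u b hu hb
    have h2 := key u' b' hu' hb'
    rw [← e1, ← e2, h1] at h2
    subst h2
    have h3 : b = b' := mul_right_cancel e1
    subst h3
    rfl
  · rintro ⟨a, c⟩
    have hu : a * (rep c).1 * a⁻¹ ∈ SS P H := conj_SS h (rep c).2 a
    have hc : cls h he ⟨a * (rep c).1 * a⁻¹, hu⟩ = c := (cls_conj h he (rep c) a).trans (hrep c)
    have h1 := hT ⟨a * (rep c).1 * a⁻¹, hu⟩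
    rw [hc] at h1
    simp only at h1
    refine ⟨⟨(a * (rep c).1 * a⁻¹, a * (T ⟨a * (rep c).1 * a⁻¹, hu⟩)⁻¹), hu, ?_⟩, ?_⟩
    · show a * (T ⟨a * (rep c).1 * a⁻¹, hu⟩)⁻¹ * (a * (rep c).1 * a⁻¹) =
        a * (rep c).1 * a⁻¹ * (a * (T ⟨a * (rep c).1 * a⁻¹, hu⟩)⁻¹)
      generalize T ⟨a * (rep c).1 * a⁻¹, hu⟩ = t at h1
      rw [← h1]
      calc a * t⁻¹ * (t * (rep c).1 * t⁻¹) = a * (rep c).1 * t⁻¹ := by group
        _ = (a * (rep c).1 * a⁻¹) * (a * t⁻¹) := by group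
        _ = (t * (rep c).1 * t⁻¹) * (a * t⁻¹) := by rw [← h1]
    · show (a * (T ⟨a * (rep c).1 * a⁻¹, hu⟩)⁻¹ * T ⟨a * (rep c).1 * a⁻¹, hu⟩,
        cls h he ⟨a * (rep c).1 * a⁻¹, hu⟩) = (a, c)
      rw [hc, inv_mul_cancel_right]

/-- the second count -/
theorem card_XX_2 (h : LD p P H) :
    Nat.card (XX P H) = (p - 1) * p * (Nat.card (ConjClasses H) * Nat.card H) := by
  have hPH : ∀ {x y x' y' : A}, x ∈ P → y ∈ H → x' ∈ P → y' ∈ H → x * y = x' * y' →
      x = x' ∧ y = y' := by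
    intro x y x' y' hx hy hx' hy' e
    obtain ⟨k, hk⟩ := exists_exp h
    have h1 : x = x' := by rw [← pw h hk hx hy, e, pw h hk hx' hy']
    subst h1
    exact ⟨rfl, mul_left_cancel e⟩
  have hcP : Nat.card {x : P // x ≠ 1} = p - 1 := by
    haveI := Fintype.ofFinite P
    rw [Nat.card_eq_fintype_card, Fintype.card_subtype_compl, Fintype.card_subtype_eq,
      ← Nat.card_eq_fintype_card, h.cP]
  have hPP : ∀ x ∈ P, ∀ z ∈ P, x * z = z * x := by
    intro x hx z hz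
    by_cases hx1 : x = 1
    · rw [hx1, one_mul, mul_one]
    obtain ⟨j, rfl⟩ := gen h hx hx1 hz
    exact ((Commute.refl x).pow_right j).eq
  have e0 : (p - 1) * p * (Nat.card (ConjClasses H) * Nat.card H) =
      Nat.card (({x : P // x ≠ 1} × P) × {q : H × H // Commute q.1 q.2}) := by
    rw [Nat.card_prod, Nat.card_prod, hcP, h.cP, card_comm_eq_card_conjClasses_mul_card]
  rw [e0]
  symm
  have hmem : ∀ q : ({x : P // x ≠ 1} × P) × {q : H × H // Commute q.1 q.2},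
      ((q.1.1.1.1 * q.2.1.1.1 : A) ∈ SS P H) ∧
        (q.1.2.1 * q.2.1.2.1) * (q.1.1.1.1 * q.2.1.1.1) =
          (q.1.1.1.1 * q.2.1.1.1) * (q.1.2.1 * q.2.1.2.1) := by
    rintro ⟨⟨⟨⟨x, hx⟩, hx1⟩, ⟨x', hx'⟩⟩, ⟨⟨⟨y, hy⟩, ⟨z, hz⟩⟩, hc⟩⟩
    refine ⟨⟨x, hx, y, hy, fun e => hx1 (Subtype.ext e), rfl⟩, ?_⟩
    have hc' : y * z = z * y := congrArg Subtype.val hc
    show (x' * z) * (x * y) = (x * y) * (x' * z)
    have e1 := h.com x hx z hz
    have e2 := h.com x' hx' y hy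
    have e3 := hPP x hx x' hx'
    calc (x' * z) * (x * y) = x' * (z * x) * y := by group
      _ = x' * (x * z) * y := by rw [e1]
      _ = (x' * x) * (z * y) := by group
      _ = (x * x') * (y * z) := by rw [e3, hc']
      _ = x * (x' * y) * z := by group
      _ = x * (y * x') * z := by rw [e2]
      _ = (x * y) * (x' * z) := by group
  refine Nat.card_congr (Equiv.ofBijective
    (fun q => (⟨(q.1.1.1.1 * q.2.1.1.1, q.1.2.1 * q.2.1.2.1), hmem q⟩ : XX P H)) ⟨?_, ?_⟩)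
  · rintro ⟨⟨⟨⟨x, hx⟩, hx1⟩, ⟨x', hx'⟩⟩, ⟨⟨⟨y, hy⟩, ⟨z, hz⟩⟩, hc⟩⟩
      ⟨⟨⟨⟨u, hu⟩, hu1⟩, ⟨u', hu'⟩⟩, ⟨⟨⟨v, hv⟩, ⟨w, hw⟩⟩, hd⟩⟩ e
    have e1 := congrArg (fun q : XX P H => q.1.1) e
    have e2 := congrArg (fun q : XX P H => q.1.2) e
    simp only at e1 e2
    obtain ⟨rfl, rfl⟩ := hPH hx hy hu hv e1
    obtain ⟨rfl, rfl⟩ := hPH hx' hz hu' hw e2
    rfl
  · rintro ⟨⟨u, b⟩, ⟨x, hx, y, hy, hx1, e⟩, hb⟩
    simp only at e hb
    subst e
    obtain ⟨x', hx', z, hz, rfl⟩ := split h (comm_P h hx hx1 hy hb)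
    refine ⟨⟨⟨⟨⟨x, hx⟩, fun e => hx1 (congrArg Subtype.val e)⟩, ⟨x', hx'⟩⟩,
      ⟨⟨⟨y, hy⟩, ⟨z, hz⟩⟩, ?_⟩⟩, rfl⟩
    apply Subtype.ext
    show y * z = z * y
    have e1 := h.com x hx z hz
    have e2 := h.com x' hx' y hy
    have e3 := hPP x hx x' hx'
    have h1 : (x' * x) * (z * y) = (x' * x) * (y * z) := by
      calc (x' * x) * (z * y) = x' * (x * z) * y := by group
        _ = x' * (z * x) * y := by rw [e1]
        _ = (x' * z) * (x * y) := by group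
        _ = (x * y) * (x' * z) := hb
        _ = x * (y * x') * z := by group
        _ = x * (x' * y) * z := by rw [e2]
        _ = (x * x') * (y * z) := by group
        _ = (x' * x) * (y * z) := by rw [e3]
    exact (mul_left_cancel h1).symm

end

theorem t_N7 : N7 := by
  intro p hp A G _ _ _ _ P H ι h he
  have h1 := card_XX_1 h he
  have h2 := card_XX_2 h
  rw [h1] at h2
  calc Nat.card A * Nat.card {c : ConjClasses G // ∃ g, ConjClasses.mk g = c ∧ p ∣ orderOf g} =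
        (p - 1) * p * (Nat.card (ConjClasses H) * Nat.card H) := h2
    _ = (p - 1) * (p * Nat.card H) * Nat.card (ConjClasses H) := by ring

end Pool.Agent.K3h99.OP
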